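import Mathlib
import Pool.Agent.N178.HW.StmC
import Pool.Agent.R915.G6

/-!
# Isogeny factors, products, the elliptic curve with complex multiplication
-/

set_option linter.unusedSectionVars false

namespace Pool.Agent.N199.GHC

open Module Pool.Agent.Y90 Pool.Agent.R915 Pool.Agent.N178.HW

/-- Isogeny factors. -/
theorem t_GSUB : S_GSUB := by
  intro d X Y f hf hinj hY W hW
  obtain ⟨hs, i, hi, hii⟩ := hW
  exact hY W ⟨hs, f.comp i, IsHom.comp' hf hi, hinj.comp hii⟩

/-- The projections. -/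
theorem fst_hom (X₁ X₂ : AV) : IsHom (prodAV X₁ X₂) X₁ (LinearMap.fst ℚ X₁.H X₂.H) :=
  ⟨LinearMap.fst ℂ X₁.T X₂.T, fun _ => rfl⟩

theorem snd_hom (X₁ X₂ : AV) : IsHom (prodAV X₁ X₂) X₂ (LinearMap.snd ℚ X₁.H X₂.H) :=
  ⟨LinearMap.snd ℂ X₁.T X₂.T, fun _ => rfl⟩

/-- Products. -/
theorem t_GPROD : S_GPROD := by
  intro d X₁ X₂ h1 h2 Y hY
  obtain ⟨hs, i, hi, hii⟩ := hY
  have hi1 := IsHom.comp' (fst_hom X₁ X₂) hi
  have hi2 := IsHom.comp' (snd_hom X₁ X₂) hi
  rcases hs.2 _ (isSub_ker hi1) with k1 | k1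
  · exact h1 Y ⟨hs, _, hi1, LinearMap.ker_eq_bot.1 k1⟩
  rcases hs.2 _ (isSub_ker hi2) with k2 | k2
  · exact h2 Y ⟨hs, _, hi2, LinearMap.ker_eq_bot.1 k2⟩
  exfalso
  obtain ⟨y, hy⟩ := hs.1
  refine hy (hii ?_)
  rw [map_zero]
  have e1 := congrArg (fun φ => φ y) (LinearMap.ker_eq_top.1 k1)
  have e2 := congrArg (fun φ => φ y) (LinearMap.ker_eq_top.1 k2)
  exact Prod.ext e1 e2

/-- The period map is injective. -/
theorem per_ne_zero (X : AV) {v : X.H} (hv : v ≠ 0) : X.per v ≠ 0 := by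
  intro h0
  obtain ⟨β, hβ⟩ := exists_realBasis X (finBasis ℚ X.H)
  have h1 : X.per v = ∑ k, ((finBasis ℚ X.H).repr v k : ℝ) • β k := by
    conv_lhs => rw [← (finBasis ℚ X.H).sum_repr v, map_sum]
    refine Finset.sum_congr rfl fun k _ => ?_
    rw [hβ, per_smul]
  rw [h0] at h1
  have h2 := Fintype.linearIndependent_iff.1 β.linearIndependent _ h1.symm
  apply hv
  rw [← (finBasis ℚ X.H).sum_repr v]
  refine Finset.sum_eq_zero fun k _ => ?_
  have h3 : (finBasis ℚ X.H).repr v k = 0 := by exact_mod_cast h2 k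
  rw [h3, zero_smul]

/-- Endomorphisms of a line are scalars. -/
theorem exists_scalar {T : Type} [AddCommGroup T] [Module ℂ T] (h1 : finrank ℂ T = 1)
    (f : T →ₗ[ℂ] T) : ∃ c : ℂ, ∀ x, f x = c • x := by
  obtain ⟨v, hv, hw⟩ := finrank_eq_one_iff'.1 h1
  obtain ⟨c, hc⟩ := hw (f v)
  refine ⟨c, fun x => ?_⟩
  obtain ⟨a, rfl⟩ := hw x
  rw [map_smul, ← hc, smul_smul, smul_smul, mul_comm]

/-- The eigenvalue of a square root. -/
theorem sq_scalar (X : AV) {δ : ℚ} {h : X.H →ₗ[ℚ] X.H} {Ψ : X.T →ₗ[ℂ] X.T} {c : ℂ}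
    (hΨ : ∀ v, Ψ (X.per v) = X.per (h v)) (hh : ∀ w, h (h w) = -(δ • w))
    (hc : ∀ x, Ψ x = c • x) {v : X.H} (hv : v ≠ 0) : c * c = -(δ : ℂ) := by
  have h1 : Ψ (Ψ (X.per v)) = X.per (h (h v)) := by rw [hΨ, hΨ]
  rw [hc, hc, hh, map_neg, per_smul, smul_smul] at h1
  have h2 : (c * c + (δ : ℂ)) • X.per v = 0 := by
    rw [add_smul, h1]
    have h3 : ((δ : ℝ) : ℝ) • X.per v = ((δ : ℝ) : ℂ) • X.per v := rfl
    have h4 : (((δ : ℝ) : ℂ)) = (δ : ℂ) := by push_cast; rfl
    rw [h3, h4, neg_add_cancel]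
  have h5 := (smul_eq_zero.1 h2).resolve_right (per_ne_zero X hv)
  linear_combination h5

/-- square roots of negative numbers are imaginary -/
theorem re_im {c : ℂ} {δ : ℚ} (hδ : 0 < δ) (hc : c * c = -(δ : ℂ)) :
    c.re = 0 ∧ c.im * c.im = (δ : ℝ) := by
  have h1 := congrArg Complex.re hc
  have h2 := congrArg Complex.im hc
  simp only [Complex.mul_re, Complex.mul_im, Complex.neg_re, Complex.neg_im, Complex.ratCast_re,
    Complex.ratCast_im, neg_zero] at h1 h2
  have hδ' : (0 : ℝ) < (δ : ℝ) := by exact_mod_cast hδ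
  have h3 : c.re * c.im = 0 := by linarith
  rcases mul_eq_zero.1 h3 with h4 | h4
  · rw [h4] at h1
    exact ⟨h4, by linarith⟩
  · rw [h4] at h1
    nlinarith [mul_self_nonneg c.re]

/-- The elliptic curve. -/
theorem t_GELL : S_GELL := by
  intro d hd Y hY
  obtain ⟨hs, i, hi, hii⟩ := hY
  have hE : finrank ℚ (EK d hd).H = 2 := finrank_AVZ (pmE (M := 1) (d := fun _ => d) (l := fun _ => 1) (fun _ => hd) fun _ => one_pos)
  have hET : finrank ℂ (EK d hd).T = 1 := by
    have := (EK d hd).rank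
    omega
  have hle : finrank ℚ Y.H ≤ finrank ℚ (EK d hd).H := LinearMap.finrank_le_finrank_of_injective hii
  obtain ⟨v, hv⟩ := hs.1
  have hpos : 0 < finrank ℚ Y.H := by
    rw [Module.finrank_pos_iff_exists_ne_zero]
    exact ⟨v, hv⟩
  have hr := Y.rank
  have hYT : finrank ℂ Y.T = 1 := by omega
  have hYH : finrank ℚ Y.H = 2 := by omega
  refine ⟨fun _ => hYH, Or.inl (by omega), ?_⟩
  intro δ h Ψ s hδ hΨ hh _
  right
  constructor
  · obtain ⟨_, h0, Ψ0, s0, hΨ0, hh0, hs0, _⟩ := unbE hd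
    change (EK d hd).H →ₗ[ℚ] (EK d hd).H at h0
    change (EK d hd).T →ₗ[ℂ] (EK d hd).T at Ψ0
    obtain ⟨Φ, hΦ⟩ := hi
    obtain ⟨c, hc⟩ := exists_scalar hYT Ψ
    obtain ⟨c0, hc0⟩ := exists_scalar hET Ψ0
    have hiv : i v ≠ 0 := fun h1 => hv (hii (by rw [h1, map_zero]))
    have q1 := re_im hδ (sq_scalar Y hΨ hh hc hv)
    have q0 := re_im hd (sq_scalar (EK d hd) hΨ0 hh0 hc0 hiv)
    have hδ0 : (0 : ℚ) < δ := hδ
    have hli : LinearIndependent ℚ ![i v, i (h v)] := by
      rw [LinearIndependent.pair_iff]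
      intro a b hab
      have h1 : a • v + b • h v = 0 := by
        refine hii ?_
        rw [map_add, map_smul, map_smul, hab, map_zero]
      have h2 : a • h v - (b * δ) • v = 0 := by
        have h3 := congrArg h h1
        rw [map_add, map_smul, map_smul, hh, map_zero, smul_neg, smul_smul] at h3
        rw [sub_eq_add_neg]
        exact h3
      have h4 : (a * a + b * b * δ) • v = 0 := by
        have h5 : (a * a + b * b * δ) • v = a • (a • v + b • h v) - b • (a • h v - (b * δ) • v) := by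
          module
        rw [h5, h1, h2, smul_zero, smul_zero, sub_zero]
      have h6 := (smul_eq_zero.1 h4).resolve_right hv
      have h7 : 0 ≤ b * b * δ := mul_nonneg (mul_self_nonneg b) hδ0.le
      have h8 : a * a = 0 := by nlinarith [mul_self_nonneg a]
      have h9 : b * b * δ = 0 := by linarith
      refine ⟨mul_self_eq_zero.1 h8, mul_self_eq_zero.1 ?_⟩
      exact (mul_eq_zero.1 h9).resolve_right hδ0.ne'
    have hsp := hli.span_eq_top_of_card_eq_finrank' (by rw [hE]; rfl)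
    have hmem : h0 (i v) ∈ Submodule.span ℚ (Set.range ![i v, i (h v)]) := by
      rw [hsp]
      exact Submodule.mem_top
    rw [Matrix.range_cons, Matrix.range_cons, Matrix.range_empty, Set.union_empty,
      Set.singleton_union, Submodule.mem_span_pair] at hmem
    obtain ⟨a, b, hab⟩ := hmem
    have h1 := congrArg (EK d hd).per hab
    have h2 : (EK d hd).per (h0 (i v)) = c0 • (EK d hd).per (i v) := by
      rw [← hc0]
      exact (hΨ0 (i v)).symm
    have h3 : (EK d hd).per (i (h v)) = c • (EK d hd).per (i v) := by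
      rw [← hΦ, ← hΦ, ← hΨ, hc, map_smul]
    rw [h2, map_add, per_smul, per_smul, h3] at h1
    have hp := per_ne_zero (EK d hd) hiv
    have h4 : (((a : ℝ) : ℂ) + ((b : ℝ) : ℂ) * c - c0) • (EK d hd).per (i v) = 0 := by
      rw [sub_smul, ← h1, add_smul, mul_smul]
      exact sub_self _
    have h5 := (smul_eq_zero.1 h4).resolve_right hp
    have h6 := congrArg Complex.re h5
    have h7 := congrArg Complex.im h5
    simp only [Complex.sub_re, Complex.add_re, Complex.mul_re, Complex.ofReal_re,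
      Complex.ofReal_im, Complex.sub_im, Complex.add_im, Complex.mul_im, Complex.zero_re,
      Complex.zero_im, q1.1, q0.1] at h6 h7
    have h8 : c0.im = b * c.im := by linarith
    have h9 : (d : ℝ) = b * b * δ := by
      rw [← q0.2, ← q1.2, h8]
      ring
    have h10 : d = b * b * δ := by exact_mod_cast h9
    have hb : b ≠ 0 := by
      intro hb
      rw [hb] at h10
      simp at h10
      exact hd.ne' h10
    refine ⟨1 / b, ?_⟩
    rw [h10]
    field_simp
  · have h1 := Submodule.finrank_le (LinearMap.ker (Ψ - s • LinearMap.id))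
    rw [hYT] at h1
    omega

end Pool.Agent.N199.GHC
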